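import Pool.Agent.H500.ED.Stm
import Pool.Agent.H500.HC.Red
import Pool.Graph.R_seed8.W401.Cheb.Frob

set_option autoImplicit false
set_option linter.unusedSectionVars false

/-!
# Conjugate reductions (`S_CMP`, by helper539 for helper500)
-/

namespace Pool.Agent.H539.ED.CMP

open NumberField IsDedekindDomain Polynomial
open Pool.Agent.W401.Cheb (GK IsFrob IsInert)
open Pool.Agent.H500.HC (QBar ZBar jz)
open Pool.Agent.H500.ED (FX Conjp)

/-- the residue characteristic -/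
theorem resp {L : Type} [Field L] [NumberField L] (w : HeightOneSpectrum (𝓞 L)) :
    ∃ p f : ℕ, p.Prime ∧ 0 < f ∧ Ideal.absNorm w.asIdeal = p ^ f ∧
      ∀ n : ℕ, (n : 𝓞 L) ∈ w.asIdeal ↔ p ∣ n := by
  have := w.isPrime
  have : w.asIdeal.IsMaximal := w.isMaximal
  let _ := Ideal.Quotient.field w.asIdeal
  have : Finite (𝓞 L ⧸ w.asIdeal) := Ideal.finiteQuotientOfFreeOfNeBot _ w.ne_bot
  cases nonempty_fintype (𝓞 L ⧸ w.asIdeal)
  obtain ⟨p, hc⟩ := CharP.exists (𝓞 L ⧸ w.asIdeal)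
  obtain ⟨k, hp, hk⟩ := FiniteField.card (𝓞 L ⧸ w.asIdeal) p
  have hN : Ideal.absNorm w.asIdeal = p ^ (k : ℕ) := by
    rw [Ideal.absNorm_apply, Submodule.cardQuot_apply, ← hk]
    exact Nat.card_eq_fintype_card
  refine ⟨p, k, hp, k.pos, hN, fun n => ?_⟩
  rw [← CharP.cast_eq_zero_iff (𝓞 L ⧸ w.asIdeal) p, ← Ideal.Quotient.eq_zero_iff_mem, map_natCast]

/-- roots of unity which are congruent modulo a prime not dividing the order -/
theorem ru {R : Type} [CommRing R] [IsDomain R] {Q : Ideal R} {M : ℕ} (hM : (M : R) ∉ Q) {η : R}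
    (h1 : η ^ M = 1) (h : η - 1 ∈ Q) : η = 1 := by
  by_contra hne
  have h2 : (η - 1) * ∑ i ∈ Finset.range M, η ^ i = 0 := by rw [mul_geom_sum, h1, sub_self]
  rcases mul_eq_zero.1 h2 with h3 | h3
  · exact hne (sub_eq_zero.1 h3)
  · apply hM
    have h4 := congrArg (Ideal.Quotient.mk Q) h3
    have h5 : Ideal.Quotient.mk Q η = 1 := by
      rw [← map_one (Ideal.Quotient.mk Q)]
      exact Ideal.Quotient.eq.2 h
    rw [map_sum, map_zero] at h4
    rw [← Ideal.Quotient.eq_zero_iff_mem, map_natCast, ← h4]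
    simp [h5]

/-- Frobenius elements on roots of unity -/
theorem frob_ru {L : Type} [Field L] [NumberField L] {w : HeightOneSpectrum (𝓞 L)} {s : GK L}
    (hs : IsFrob w s) {M : ℕ} (hM : (M : 𝓞 L) ∉ w.asIdeal) (hM0 : 0 < M) {x : AlgebraicClosure L}
    (hx : x ^ M = 1) : s x = x ^ Ideal.absNorm w.asIdeal := by
  obtain ⟨Q, hQm, hQw, hQ⟩ := hs
  have hint : IsIntegral ℤ x := IsIntegral.of_pow hM0 (by rw [hx]; exact isIntegral_one)
  obtain ⟨z, hzx⟩ : ∃ z : 𝓞 (AlgebraicClosure L), (z : AlgebraicClosure L) = x := ⟨⟨x, hint⟩, rfl⟩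
  have hz : z ^ M = 1 := by
    apply RingOfIntegers.coe_injective
    show algebraMap (𝓞 (AlgebraicClosure L)) (AlgebraicClosure L) (z ^ M) = algebraMap _ _ 1
    rw [map_pow, map_one]
    exact (congrArg (· ^ M) hzx).trans hx
  have hMQ : (M : 𝓞 (AlgebraicClosure L)) ∉ Q := by
    intro h
    apply hM
    rw [← hQw, Ideal.mem_comap, map_natCast]
    exact h
  obtain ⟨q, hq⟩ : ∃ q, q = Ideal.absNorm w.asIdeal := ⟨_, rfl⟩
  rw [← hq] at hQ ⊢
  have h1 : (s • z) ^ M = 1 := by rw [← smul_pow', hz, smul_one]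
  have h2 : (s • z * z ^ (q * (M - 1))) ^ M = 1 := by
    rw [mul_pow, h1, one_mul, ← pow_mul, mul_comm _ M, pow_mul, hz, one_pow]
  have h3 : z ^ q * z ^ (q * (M - 1)) = 1 := by
    rw [← pow_add, show q + q * (M - 1) = M * q by
      obtain ⟨m, rfl⟩ : ∃ m, M = m + 1 := ⟨M - 1, by omega⟩
      rw [Nat.add_sub_cancel]; ring, pow_mul, hz, one_pow]
  have h4 : s • z * z ^ (q * (M - 1)) - 1 ∈ Q := by
    have h5 : s • z * z ^ (q * (M - 1)) - 1 = (s • z - z ^ q) * z ^ (q * (M - 1)) := by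
      rw [sub_mul, h3]
    rw [h5]
    exact Q.mul_mem_right _ (hQ z)
  have h5 := ru hMQ h2 h4
  have h6 : s • z = z ^ q := by
    calc s • z = s • z * (z ^ q * z ^ (q * (M - 1))) := by rw [h3, mul_one]
      _ = (s • z * z ^ (q * (M - 1))) * z ^ q := by ring
      _ = z ^ q := by rw [h5, one_mul]
  have h7 := congrArg (algebraMap (𝓞 (AlgebraicClosure L)) (AlgebraicClosure L)) h6
  rw [map_pow] at h7
  rw [← hzx]
  exact h7

section
variable {K : Type} [Field K] [NumberField K] {U : Subgroup (GK K)} {L : Type} [Field L]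
  [NumberField L] [Algebra K L] {ι : GK L →* GK K} {e : AlgebraicClosure L ≃+* AlgebraicClosure K}

theorem frob_ru' (F : FX U L ι e) {w : HeightOneSpectrum (𝓞 L)} {s : GK L}
    (hs : IsFrob w s) {M : ℕ} (hM : (M : 𝓞 L) ∉ w.asIdeal) (hM0 : 0 < M) {x : AlgebraicClosure K}
    (hx : x ^ M = 1) : ι s x = x ^ Ideal.absNorm w.asIdeal := by
  have h1 : (e.symm x) ^ M = 1 := by rw [← map_pow, hx, map_one]
  have h2 := frob_ru hs hM hM0 h1
  have h3 := F.act s (e.symm x)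
  rw [e.apply_symm_apply, h2, map_pow, e.apply_symm_apply] at h3
  exact h3

/-- conjugate Frobenius elements have the same norm -/
theorem norm_eq (F : FX U L ι e) {w w' : HeightOneSpectrum (𝓞 L)} {s s' : GK L} {y : GK K}
    (hs : IsFrob w s) (hs' : IsFrob w' s') (h : ι s' = y⁻¹ * ι s * y) :
    Ideal.absNorm w.asIdeal = Ideal.absNorm w'.asIdeal := by
  obtain ⟨p, f, hp, hf, hq, hpm⟩ := resp w
  obtain ⟨p', f', hp', hf', hq', hpm'⟩ := resp w'
  obtain ⟨M, hMge, hMp⟩ := Nat.exists_infinite_primes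
    (Ideal.absNorm w.asIdeal + Ideal.absNorm w'.asIdeal + 2)
  have hM : (M : 𝓞 L) ∉ w.asIdeal := by
    rw [hpm]
    intro hd
    have h1 := (Nat.prime_dvd_prime_iff_eq hp hMp).1 hd
    have h2 : p ≤ p ^ f := Nat.le_self_pow hf.ne' p
    omega
  have hM' : (M : 𝓞 L) ∉ w'.asIdeal := by
    rw [hpm']
    intro hd
    have h1 := (Nat.prime_dvd_prime_iff_eq hp' hMp).1 hd
    have h2 : p' ≤ p' ^ f' := Nat.le_self_pow hf'.ne' p'
    omega
  have : NeZero (M : AlgebraicClosure K) := ⟨Nat.cast_ne_zero.2 hMp.ne_zero⟩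
  obtain ⟨ζ, hζ⟩ := HasEnoughRootsOfUnity.exists_primitiveRoot (AlgebraicClosure K) M
  have h1 := frob_ru' F hs' hM' hMp.pos hζ.pow_eq_one
  have h2 : (y ζ) ^ M = 1 := by rw [← map_pow, hζ.pow_eq_one, map_one]
  have h3 := frob_ru' F hs hM hMp.pos h2
  rw [h] at h1
  have h4 : (y⁻¹ * ι s * y) ζ = ζ ^ Ideal.absNorm w.asIdeal := by
    rw [AlgEquiv.mul_apply, AlgEquiv.mul_apply, h3, ← map_pow, ← AlgEquiv.mul_apply,
      inv_mul_cancel, AlgEquiv.one_apply]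
  exact hζ.pow_inj (by omega) (by omega) (h4.symm.trans h1)

end

theorem main : Pool.Agent.H500.ED.S_FXJ → Pool.Agent.H500.ED.S_FXC →
    Pool.Agent.H500.ED.S_CMP := by
  intro _ hC K E _ _ _ _ j U L _ _ _ ι e N n ψ hUn hUo F hN hψ
  obtain ⟨hinj, hrange, -⟩ := hC K U L ι e hUo F
  have hfin : Finite (GK K ⧸ U) := Subgroup.quotient_finite_of_isOpen _ hUo
  have hA : ∀ (c : GK K ⧸ U) (a b : Fin n), {lam : HeightOneSpectrum (𝓞 E) |
      ∃ (k : Type) (_ : Field k) (r : ZBar →+* k) (y : GK K), (y : GK K ⧸ U) = c ∧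
      RingHom.ker (r.comp (jz j)) = lam.asIdeal ∧ ¬ Conjp ι ψ y a b ∧
    ∀ (w w' : HeightOneSpectrum (𝓞 L)) (s s' : GK L), (N : 𝓞 L) ∉ w.asIdeal →
      (N : 𝓞 L) ∉ w'.asIdeal → ((Ideal.absNorm lam.asIdeal : ℕ) : 𝓞 L) ∉ w.asIdeal →
      ((Ideal.absNorm lam.asIdeal : ℕ) : 𝓞 L) ∉ w'.asIdeal → IsFrob w s → IsFrob w' s' →
      ι s' = y⁻¹ * ι s * y → r (ψ b w.asIdeal) = r (ψ a w'.asIdeal)}.Finite := by
    intro c a b
    rcases Set.eq_empty_or_nonempty {lam : HeightOneSpectrum (𝓞 E) |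
      ∃ (k : Type) (_ : Field k) (r : ZBar →+* k) (y : GK K), (y : GK K ⧸ U) = c ∧
      RingHom.ker (r.comp (jz j)) = lam.asIdeal ∧ ¬ Conjp ι ψ y a b ∧
    ∀ (w w' : HeightOneSpectrum (𝓞 L)) (s s' : GK L), (N : 𝓞 L) ∉ w.asIdeal →
      (N : 𝓞 L) ∉ w'.asIdeal → ((Ideal.absNorm lam.asIdeal : ℕ) : 𝓞 L) ∉ w.asIdeal →
      ((Ideal.absNorm lam.asIdeal : ℕ) : 𝓞 L) ∉ w'.asIdeal → IsFrob w s → IsFrob w' s' →
      ι s' = y⁻¹ * ι s * y → r (ψ b w.asIdeal) = r (ψ a w'.asIdeal)} with h0 | h0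
    · rw [h0]
      exact Set.finite_empty
    obtain ⟨lam₀, k₀, _, r₀, y₁, hy₁, -, hnc, -⟩ := h0
    unfold Conjp at hnc
    push Not at hnc
    obtain ⟨w, w', s, s', hs, hs', hι, hne⟩ := hnc
    have hq := norm_eq F hs hs' hι
    obtain ⟨p, f, hp, hf, hpq, hpm⟩ := resp w
    obtain ⟨p', f', hp', hf', hpq', hpm'⟩ := resp w'
    have hpp : p = p' := by
      rw [hpq, hpq'] at hq
      have h1 : p ∣ p' ^ f' := by
        rw [← hq]
        exact dvd_pow_self p hf.ne'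
      exact (Nat.prime_dvd_prime_iff_eq hp hp').1 (hp.dvd_of_dvd_pow h1)
    subst hpp
    have hz0 : ∀ (i : Fin n) (u : HeightOneSpectrum (𝓞 L)), (N : 𝓞 L) ∈ u.asIdeal →
        ψ i u.asIdeal = 0 := by
      intro i u hu
      by_contra h1
      have h2 := (hψ i u.asIdeal u.ne_bot).1 h1
      rw [Ideal.isCoprime_iff_sup_eq] at h2
      apply u.isPrime.ne_top
      rw [← h2]
      exact (sup_eq_left.2 ((Ideal.span_singleton_le_iff_mem _).2 hu)).symm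
    have hNw : (N : 𝓞 L) ∉ w.asIdeal := by
      intro h1
      have h2 : (N : 𝓞 L) ∈ w'.asIdeal := (hpm' N).2 ((hpm N).1 h1)
      exact hne (by rw [hz0 b w h1, hz0 a w' h2])
    have hNw' : (N : 𝓞 L) ∉ w'.asIdeal := fun h1 => hNw ((hpm N).2 ((hpm' N).1 h1))
    obtain ⟨b0, hb0, z, hz⟩ := Pool.Agent.H500.HC.dvd_int (sub_ne_zero.2 hne)
    have hb0' : (b0 : 𝓞 E) ≠ 0 := Int.cast_ne_zero.2 hb0
    have hp0 : (p : 𝓞 E) ≠ 0 := Nat.cast_ne_zero.2 hp.ne_zero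
    refine ((Pool.Agent.H500.Kum.fin_mem hb0').union (Pool.Agent.H500.Kum.fin_mem hp0)).subset ?_
    rintro lam ⟨k, _, r, y₂, hy₂, hker, -, hcong⟩
    obtain ⟨l, g, hl, hg, hlg, hlm⟩ := resp lam
    have key : p ∣ Ideal.absNorm lam.asIdeal → (p : 𝓞 E) ∈ lam.asIdeal := by
      intro h1
      rw [hlg] at h1
      rw [hlm, (Nat.prime_dvd_prime_iff_eq hp hl).1 (hp.dvd_of_dvd_pow h1)]
    by_cases c1 : ((Ideal.absNorm lam.asIdeal : ℕ) : 𝓞 L) ∈ w.asIdeal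
    · exact Or.inr (key ((hpm _).1 c1))
    by_cases c2 : ((Ideal.absNorm lam.asIdeal : ℕ) : 𝓞 L) ∈ w'.asIdeal
    · exact Or.inr (key ((hpm' _).1 c2))
    left
    have hyU : y₁⁻¹ * y₂ ∈ U := QuotientGroup.eq.1 (hy₁.trans hy₂.symm)
    rw [← hrange] at hyU
    obtain ⟨u, hu⟩ := hyU
    have hs'' : IsFrob w' (u⁻¹ * s' * u) := by
      have h1 := (Pool.Agent.W401.Frob.main L).2.2 w' s' u⁻¹ hs'
      rwa [inv_inv] at h1
    have hι'' : ι (u⁻¹ * s' * u) = y₂⁻¹ * ι s * y₂ := by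
      rw [map_mul, map_mul, map_inv, hι, hu]
      group
    have h2 := hcong w w' s _ hNw hNw' c1 c2 hs hs'' hι''
    show (b0 : 𝓞 E) ∈ lam.asIdeal
    rw [← hker, RingHom.mem_ker, map_intCast, ← map_intCast r, hz, map_mul, map_sub, h2, sub_self,
      zero_mul]
  refine (Set.finite_iUnion fun c => Set.finite_iUnion fun a => Set.finite_iUnion fun b =>
    hA c a b).subset ?_
  rintro lam ⟨k, hk, r, y, a, b, h1, h2, h3⟩
  simp only [Set.mem_iUnion]
  exact ⟨(y : GK K ⧸ U), a, b, k, hk, r, y, rfl, h1, h2, h3⟩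

end Pool.Agent.H539.ED.CMP
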